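import Pool.Agent.Helper21.TRI.Pt
import Pool.Agent.Helper21.TS.Gen2
import Pool.Agent.Helper97.TRI.Generic
import Pool.Agent.Helper31.TRI.Ultra

/-!
# TRI, G5: the Jacobian form of two independent vectors of exponents is not in the ideal, off a hypersurface
-/

set_option autoImplicit false

namespace Pool.Agent.Helper21.TS

open Module MvPolynomial Pool.Agent.TRI

universe u

/-- `no_der` with any coordinate equal to one -/
theorem no_der_at {k₀ M E : Type*} [Field k₀] [CharZero k₀] [Field M] [Algebra k₀ M] [Field E] [Algebra k₀ E]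
    [Algebra M E] [IsScalarTower k₀ M E] {N q : ℕ} (l : Fin q → Fin (N + 1) → M)
    (hl : AlgebraicIndependent k₀ fun p : Fin q × Fin (N + 1) => l p.1 p.2) (y : Fin (N + 1) → E) (j : Fin (N + 1)) (hj : y j = 1)
    (htr : Algebra.trdeg k₀ (IntermediateField.adjoin k₀ (Set.range y)) ≤ 2) (c : Fin 2 → Fin (N + 1))
    (hc : AlgebraicIndependent M fun j => y (c j)) (hly : ∀ i, ∑ b, algebraMap M E (l i b) * y b ≠ 0) (α β : Fin q → M)
    (i₀ j₀ : Fin q) (hp : α i₀ * β j₀ ≠ α j₀ * β i₀) (η : Derivation M E E)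
    (hα : ∑ i, algebraMap M E (α i) * (η (∑ b, algebraMap M E (l i b) * y b) / ∑ b, algebraMap M E (l i b) * y b) = 0)
    (hβ : ∑ i, algebraMap M E (β i) * (η (∑ b, algebraMap M E (l i b) * y b) / ∑ b, algebraMap M E (l i b) * y b) = 0) :
    ∀ b, η (y b) = 0 := by
  obtain ⟨e, he⟩ : ∃ e : Equiv.Perm (Fin (N + 1)), e 0 = j := ⟨Equiv.swap 0 j, Equiv.swap_apply_left _ _⟩
  have hr : Set.range (y ∘ e) = Set.range y := e.surjective.range_comp y
  have hs : ∀ i, ∑ b, algebraMap M E (l i (e b)) * (y ∘ e) b = ∑ b, algebraMap M E (l i b) * y b := fun i =>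
    Equiv.sum_comp e fun c => algebraMap M E (l i c) * y c
  have h1 := no_der (k₀ := k₀) (fun i b => l i (e b))
    (hl.comp (fun p : Fin q × Fin (N + 1) => (p.1, e p.2)) (by
      rintro ⟨p1, p2⟩ ⟨p1', p2'⟩ h
      have h1 := (Prod.mk.inj h).1
      have h2 := e.injective (Prod.mk.inj h).2
      exact Prod.ext h1 h2)) (y ∘ e)
    (by rw [Function.comp_apply, he, hj]) (by rw [hr]; exact htr) (fun i => e.symm (c i))
    (by
      have h2 : (fun i => (y ∘ e) (e.symm (c i))) = fun i => y (c i) := by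
        funext i
        rw [Function.comp_apply, Equiv.apply_symm_apply]
      rw [h2]
      exact hc) (fun i => by rw [hs]; exact hly i) α β i₀ j₀ hp η (by simp only [hs]; exact hα) (by simp only [hs]; exact hβ)
  intro b
  have h2 := h1 (e.symm b)
  rwa [Function.comp_apply, Equiv.apply_symm_apply] at h2

section

variable {k₀ : Type*} [Field k₀]

/-- `jac` over a commutative ring -/
noncomputable def jacR {R : Type*} [CommRing R] [Algebra k₀ R] {N n q : ℕ} (f : Fin n → MvPolynomial (Fin (N + 1)) k₀)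
    (l : Fin q → Fin (N + 1) → R) (c : Fin (N + 1)) (i j : Fin q) : MvPolynomial (Fin (N + 1)) R :=
  (if h : n + 3 = N + 1 then Matrix.det (Matrix.of fun a b : Fin (N + 1) =>
    (Fin.append (fun t => fun b => MvPolynomial.map (algebraMap k₀ R) (pderiv b (f t)))
      ![fun b => C (l i b), fun b => C (l j b), Pi.single c 1] : Fin (n + 3) → Fin (N + 1) → MvPolynomial (Fin (N + 1)) R)
        (Fin.cast h.symm a) b) else 0) *
  ∏ m ∈ Finset.univ.filter (fun m => m ≠ i ∧ m ≠ j), ∑ b, C (l m b) * X b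

theorem jacR_eq {K : Type*} [Field K] [Algebra k₀ K] {N n q : ℕ} (f : Fin n → MvPolynomial (Fin (N + 1)) k₀)
    (l : Fin q → Fin (N + 1) → K) (c : Fin (N + 1)) (i j : Fin q) : jacR f l c i j = jac f l c i j := rfl

theorem map_jacR {R S : Type*} [CommRing R] [Algebra k₀ R] [CommRing S] [Algebra k₀ S] (φ : R →ₐ[k₀] S) {N n q : ℕ}
    (f : Fin n → MvPolynomial (Fin (N + 1)) k₀) (l : Fin q → Fin (N + 1) → R) (c : Fin (N + 1)) (i j : Fin q) :
    MvPolynomial.map (φ : R →+* S) (jacR f l c i j) = jacR f (fun i b => φ (l i b)) c i j := by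
  classical
  unfold jacR
  rw [map_mul, map_prod]
  congr 1
  · split_ifs with h
    · rw [RingHom.map_det]
      congr 1
      obtain rfl : N = n + 2 := by omega
      funext s t
      simp only [RingHom.mapMatrix_apply, Matrix.map_apply, Matrix.of_apply]
      refine Fin.addCases (m := n) (n := 3) (fun i' => ?_) (fun i' => ?_) (Fin.cast h.symm s)
      · simp only [Fin.append_left]
        rw [map_map, φ.comp_algebraMap]
      · fin_cases i'
        · simp
        · simp
        · by_cases hb : t = c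
          · subst hb
            simp
          · simp [Pi.single_eq_of_ne hb]
    · rw [map_zero]
  · refine Finset.prod_congr rfl fun m _ => ?_
    rw [map_sum]
    refine Finset.sum_congr rfl fun b _ => ?_
    rw [map_mul, map_C, map_X]
    rfl

/-- the sum of the Jacobian forms -/
noncomputable def JR {R : Type*} [CommRing R] [Algebra k₀ R] {N n q : ℕ} (f : Fin n → MvPolynomial (Fin (N + 1)) k₀)
    (l : Fin q → Fin (N + 1) → R) (c : Fin (N + 1)) (α β : Fin q → R) : MvPolynomial (Fin (N + 1)) R :=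
  ∑ p : Fin q × Fin q, C (α p.1 * β p.2) * jacR f l c p.1 p.2

theorem map_JR {R S : Type*} [CommRing R] [Algebra k₀ R] [CommRing S] [Algebra k₀ S] (φ : R →ₐ[k₀] S) {N n q : ℕ}
    (f : Fin n → MvPolynomial (Fin (N + 1)) k₀) (l : Fin q → Fin (N + 1) → R) (c : Fin (N + 1)) (α β : Fin q → R) :
    MvPolynomial.map (φ : R →+* S) (JR f l c α β) = JR f (fun i b => φ (l i b)) c (fun i => φ (α i)) (fun i => φ (β i)) := by
  unfold JR
  rw [map_sum]
  refine Finset.sum_congr rfl fun p _ => ?_
  rw [map_mul, map_C, map_jacR, map_mul]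
  rfl

end

section

variable {E : Type*} [Field E]

/-- the rows: the gradients, `u`, `v` and the unit vector -/
noncomputable def rows {n : ℕ} (G : Fin n → Fin (n + 3) → E) (c : Fin (n + 3)) (u v : Fin (n + 3) → E) :
    Matrix (Fin (n + 3)) (Fin (n + 3)) E := Matrix.of fun a b => (Fin.append G ![u, v, Pi.single c 1] : Fin (n + 3) → Fin (n + 3) → E) a b

theorem rows_update {n : ℕ} (G : Fin n → Fin (n + 3) → E) (c : Fin (n + 3)) (u v : Fin (n + 3) → E) :
    rows G c u v = Matrix.updateRow (Matrix.updateRow (rows G c 0 0) (Fin.natAdd n 0) u) (Fin.natAdd n 1) v := by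
  funext a b
  refine Fin.addCases (fun i => ?_) (fun i => ?_) a
  · have h1 : Fin.castAdd 3 i ≠ Fin.natAdd n 0 := by
      intro h; have := congrArg Fin.val h; simp at this; omega
    have h2 : Fin.castAdd 3 i ≠ Fin.natAdd n 1 := by
      intro h; have := congrArg Fin.val h; simp at this; omega
    rw [Matrix.updateRow_ne h2, Matrix.updateRow_ne h1]
    simp [rows]
  · fin_cases i
    · have h2 : (Fin.natAdd n (0 : Fin 3)) ≠ Fin.natAdd n 1 := by
        intro h; have := congrArg Fin.val h; simp at this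
      change rows G c u v (Fin.natAdd n (0 : Fin 3)) b = _
      change _ = Matrix.updateRow (Matrix.updateRow (rows G c 0 0) (Fin.natAdd n 0) u) (Fin.natAdd n 1) v (Fin.natAdd n (0 : Fin 3)) b
      rw [Matrix.updateRow_ne h2, Matrix.updateRow_self]
      simp [rows]
    · change rows G c u v (Fin.natAdd n (1 : Fin 3)) b = Matrix.updateRow _ (Fin.natAdd n 1) v (Fin.natAdd n (1 : Fin 3)) b
      rw [Matrix.updateRow_self]
      simp [rows]
    · have h1 : (Fin.natAdd n (2 : Fin 3)) ≠ Fin.natAdd n 0 := by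
        intro h; have := congrArg Fin.val h; simp at this
      have h2 : (Fin.natAdd n (2 : Fin 3)) ≠ Fin.natAdd n 1 := by
        intro h; have := congrArg Fin.val h; simp at this
      change rows G c u v (Fin.natAdd n (2 : Fin 3)) b =
        Matrix.updateRow (Matrix.updateRow (rows G c 0 0) (Fin.natAdd n 0) u) (Fin.natAdd n 1) v (Fin.natAdd n (2 : Fin 3)) b
      rw [Matrix.updateRow_ne h2, Matrix.updateRow_ne h1]
      simp [rows]

/-- linearity in the two rows -/
theorem rows_det {n : ℕ} (G : Fin n → Fin (n + 3) → E) (c : Fin (n + 3)) {q : ℕ} (w : Fin q → Fin (n + 3) → E)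
    (α β : Fin q → E) : (rows G c (∑ i, α i • w i) (∑ j, β j • w j)).det = ∑ i, ∑ j, α i * β j * (rows G c (w i) (w j)).det := by
  classical
  have h1 : ∀ (M : Matrix (Fin (n + 3)) (Fin (n + 3)) E) (i₀ : Fin (n + 3)) (s : Finset (Fin q)) (γ : Fin q → E),
      (Matrix.updateRow M i₀ (∑ i ∈ s, γ i • w i)).det = ∑ i ∈ s, γ i * (Matrix.updateRow M i₀ (w i)).det := by
    intro M i₀ s γ
    induction s using Finset.induction_on with
    | empty =>
      rw [Finset.sum_empty, Finset.sum_empty]
      exact Matrix.det_eq_zero_of_row_eq_zero i₀ fun j => by rw [Matrix.updateRow_self]; rfl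
    | insert i s hi ih => rw [Finset.sum_insert hi, Finset.sum_insert hi, Matrix.det_updateRow_add, Matrix.det_updateRow_smul, ih]
  have hne : (Fin.natAdd n (0 : Fin 3)) ≠ Fin.natAdd n 1 := by
    intro h; have := congrArg Fin.val h; simp at this
  rw [rows_update, h1]
  have h2 : ∀ j, (Matrix.updateRow (Matrix.updateRow (rows G c 0 0) (Fin.natAdd n 0) (∑ i, α i • w i)) (Fin.natAdd n 1) (w j)).det
      = ∑ i, α i * (rows G c (w i) (w j)).det := by
    intro j
    have h3 : ∀ x, Matrix.updateRow (Matrix.updateRow (rows G c 0 0) (Fin.natAdd n 0) x) (Fin.natAdd n 1) (w j) =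
        Matrix.updateRow (Matrix.updateRow (rows G c 0 0) (Fin.natAdd n 1) (w j)) (Fin.natAdd n 0) x := fun x =>
      Function.update_comm hne _ _ _
    rw [h3, h1]
    refine Finset.sum_congr rfl fun i _ => ?_
    rw [← h3, ← rows_update]
  symm
  rw [Finset.sum_comm]
  refine Finset.sum_congr rfl fun j _ => ?_
  rw [h2, Finset.mul_sum]
  refine Finset.sum_congr rfl fun i _ => ?_
  ring

theorem rows_self {n : ℕ} (G : Fin n → Fin (n + 3) → E) (c : Fin (n + 3)) (u : Fin (n + 3) → E) :
    (rows G c u u).det = 0 := by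
  have hne : (Fin.natAdd n (0 : Fin 3)) ≠ Fin.natAdd n 1 := by
    intro h; have := congrArg Fin.val h; simp at this
  refine Matrix.det_zero_of_row_eq hne ?_
  funext b
  simp [rows]

/-- the value of the sum of the Jacobian forms -/
theorem aeval_JR {k₀ M : Type*} [Field k₀] [Field M] [Algebra k₀ M] [Algebra k₀ E] [Algebra M E] [IsScalarTower k₀ M E] {n q : ℕ}
    (f : Fin n → MvPolynomial (Fin (n + 2 + 1)) k₀) (l : Fin q → Fin (n + 2 + 1) → M) (c : Fin (n + 2 + 1)) (α β : Fin q → M)
    (y : Fin (n + 2 + 1) → E) (hl : ∀ i, lv (l i) y ≠ 0) :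
    aeval y (JR f l c α β) = (∏ i, lv (l i) y) * (rows (fun t => grad (f t) y) c
      (∑ i, (algebraMap M E (α i) / lv (l i) y) • fun b => algebraMap M E (l i b))
      (∑ i, (algebraMap M E (β i) / lv (l i) y) • fun b => algebraMap M E (l i b))).det := by
  classical
  have hjac : ∀ i j, aeval y (jacR f l c i j) = (rows (fun t => grad (f t) y) c (fun b => algebraMap M E (l i b))
      (fun b => algebraMap M E (l j b))).det * ∏ m ∈ Finset.univ.filter (fun m => m ≠ i ∧ m ≠ j), lv (l m) y := by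
    intro i j
    unfold jacR
    rw [dif_pos (show n + 3 = n + 2 + 1 from rfl), map_mul, map_prod]
    congr 1
    · rw [AlgHom.map_det]
      congr 1
      funext s t
      refine Fin.addCases (m := n) (n := 3) (fun i' => ?_) (fun i' => ?_) s
      · simp [rows, grad, aeval_map_algebraMap]
      · fin_cases i'
        · simp [rows]
        · simp [rows]
        · simp [rows, Pi.single_apply, apply_ite]
    · refine Finset.prod_congr rfl fun m _ => ?_
      simp [lv]
  have hprod : ∀ i j, (algebraMap M E (α i) * algebraMap M E (β j)) * aeval y (jacR f l c i j) =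
      (∏ m, lv (l m) y) * ((algebraMap M E (α i) / lv (l i) y) * (algebraMap M E (β j) / lv (l j) y) *
        (rows (fun t => grad (f t) y) c (fun b => algebraMap M E (l i b)) (fun b => algebraMap M E (l j b))).det) := by
    intro i j
    rw [hjac]
    by_cases hij : i = j
    · subst hij
      rw [rows_self]
      ring
    · have h2 : ∏ m, lv (l m) y = lv (l i) y * lv (l j) y * ∏ m ∈ Finset.univ.filter (fun m => m ≠ i ∧ m ≠ j), lv (l m) y := by
        rw [← Finset.mul_prod_erase Finset.univ _ (Finset.mem_univ i),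
          ← Finset.mul_prod_erase (Finset.univ.erase i) _ (Finset.mem_erase.2 ⟨Ne.symm hij, Finset.mem_univ j⟩), mul_assoc]
        congr 2
        refine Finset.prod_congr ?_ fun _ _ => rfl
        ext m
        simp only [Finset.mem_erase, Finset.mem_univ, and_true, Finset.mem_filter, true_and]
        tauto
      rw [h2]
      have hi := hl i
      have hj := hl j
      field_simp
  rw [rows_det, JR, map_sum, Fintype.sum_prod_type, Finset.mul_sum]
  refine Finset.sum_congr rfl fun i _ => ?_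
  rw [Finset.mul_sum]
  refine Finset.sum_congr rfl fun j _ => ?_
  rw [← hprod, map_mul, aeval_C, map_mul]

/-- a vector which is killed by all rows -/
theorem rows_ker {n : ℕ} (G : Fin n → Fin (n + 3) → E) (c : Fin (n + 3)) (u v : Fin (n + 3) → E) (h : (rows G c u v).det = 0) :
    ∃ z : Fin (n + 3) → E, z ≠ 0 ∧ (∀ t, ∑ b, G t b * z b = 0) ∧ ∑ b, u b * z b = 0 ∧ ∑ b, v b * z b = 0 ∧ z c = 0 := by
  obtain ⟨z, hz, hz'⟩ := Matrix.exists_mulVec_eq_zero_iff.2 h
  have h1 : ∀ a, ∑ b, rows G c u v a b * z b = 0 := fun a => congrFun hz' a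
  refine ⟨z, hz, fun t => ?_, ?_, ?_, ?_⟩
  · simpa [rows] using h1 (Fin.castAdd 3 t)
  · simpa [rows] using h1 (Fin.natAdd n (0 : Fin 3))
  · simpa [rows] using h1 (Fin.natAdd n (1 : Fin 3))
  · have h2 := h1 (Fin.natAdd n (2 : Fin 3))
    have h3 : ∀ b, rows G c u v (Fin.natAdd n (2 : Fin 3)) b = if b = c then 1 else 0 := by
      intro b
      simp [rows, Pi.single_apply]
    rw [Finset.sum_congr rfl fun b _ => by rw [h3 b, ite_mul, zero_mul, one_mul], Finset.sum_ite_eq'] at h2
    simpa using h2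

end

/-- the tangent space has dimension two -/
theorem tangent {E : Type*} [Field E] {n : ℕ} (G : Fin n → Fin (n + 3) → E) (hG : LinearIndependent E G) (c : Fin (n + 3))
    (c' : Fin 2 → Fin (n + 3)) (y z : Fin (n + 3) → E) (d : Fin 2 → Fin (n + 3) → E) (hyc : y c = 1) (hdc : ∀ j, d j c = 0)
    (hzc : z c = 0) (hd : ∀ j i, d j (c' i) = if i = j then 1 else 0) (hGy : ∀ t, ∑ b, G t b * y b = 0)
    (hGz : ∀ t, ∑ b, G t b * z b = 0) (hGd : ∀ j t, ∑ b, G t b * d j b = 0) (b : Fin (n + 3)) :
    z b = z (c' 0) * d 0 b + z (c' 1) * d 1 b := by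
  classical
  obtain ⟨w, hw⟩ : ∃ w : Fin (n + 3) → E, w = fun b => z b - (z (c' 0) * d 0 b + z (c' 1) * d 1 b) := ⟨_, rfl⟩
  have hwc : w c = 0 := by
    rw [hw]
    simp only [hzc, hdc, mul_zero, add_zero, sub_zero]
  have hw0 : w (c' 0) = 0 := by
    rw [hw]
    simp [hd]
  have hw1 : w (c' 1) = 0 := by
    rw [hw]
    simp [hd]
  have hGw : ∀ t, ∑ b, G t b * w b = 0 := by
    intro t
    have h1 : ∀ b, G t b * w b = G t b * z b - (z (c' 0) * (G t b * d 0 b) + z (c' 1) * (G t b * d 1 b)) := by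
      intro b
      rw [hw]
      ring
    rw [Finset.sum_congr rfl fun b _ => h1 b, Finset.sum_sub_distrib, Finset.sum_add_distrib, ← Finset.mul_sum, ← Finset.mul_sum,
      hGz, hGd, hGd]
    ring
  by_contra hcon
  have hwne : w ≠ 0 := by
    intro h
    apply hcon
    have h2 := congrFun h b
    rw [hw] at h2
    exact sub_eq_zero.1 h2
  -- four vectors
  let A : Matrix (Fin n) (Fin (n + 3)) E := Matrix.of G
  have hrank : A.rank = n := by
    have := LinearIndependent.rank_matrix (M := A) hG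
    rw [this, Fintype.card_fin]
  have hker : finrank E (LinearMap.ker A.mulVecLin) = 3 := by
    have h1 := LinearMap.finrank_range_add_finrank_ker A.mulVecLin
    rw [Module.finrank_fintype_fun_eq_card, Fintype.card_fin] at h1
    have h2 : finrank E (LinearMap.range A.mulVecLin) = n := hrank
    omega
  have hmem : ∀ v : Fin (n + 3) → E, (∀ t, ∑ b, G t b * v b = 0) → v ∈ LinearMap.ker A.mulVecLin := by
    intro v hv
    rw [LinearMap.mem_ker]
    funext t
    exact hv t
  let F : Fin 4 → LinearMap.ker A.mulVecLin := ![⟨y, hmem y hGy⟩, ⟨d 0, hmem _ (hGd 0)⟩, ⟨d 1, hmem _ (hGd 1)⟩, ⟨w, hmem w hGw⟩]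
  have hF : LinearIndependent E F := by
    rw [Fintype.linearIndependent_iff]
    intro g hg
    have hg' : ∀ b, g 0 * y b + g 1 * d 0 b + g 2 * d 1 b + g 3 * w b = 0 := by
      intro b
      have h1 := congrFun (congrArg Subtype.val hg) b
      rw [Fin.sum_univ_four] at h1
      exact h1
    have h0 : g 0 = 0 := by
      have := hg' c
      rw [hyc, hdc, hdc, hwc] at this
      linear_combination this
    have h1 : g 1 = 0 := by
      have := hg' (c' 0)
      rw [hd, hd, hw0, h0] at this
      simpa using this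
    have h2 : g 2 = 0 := by
      have := hg' (c' 1)
      rw [hd, hd, hw1, h0] at this
      simpa using this
    have h3 : g 3 = 0 := by
      obtain ⟨b, hb⟩ := Function.ne_iff.1 hwne
      have := hg' b
      rw [h0, h1, h2, zero_mul, zero_mul, zero_mul, add_zero, add_zero, zero_add] at this
      exact (mul_eq_zero.1 this).resolve_right hb
    intro i
    fin_cases i
    · exact h0
    · exact h1
    · exact h2
    · exact h3
  have h5 := hF.fintype_card_le_finrank
  rw [hker, Fintype.card_fin] at h5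
  omega

/-- the chain rule -/
theorem chain_rule {k₀ E σ : Type*} [Field k₀] [Field E] [Algebra k₀ E] [Fintype σ] (η : Derivation k₀ E E) (ξ : σ → E)
    (g : MvPolynomial σ k₀) : η (aeval ξ g) = ∑ b, aeval ξ (pderiv b g) * η (ξ b) := by
  classical
  induction g using MvPolynomial.induction_on with
  | C a => simp
  | add p q hp hq =>
    simp only [map_add, hp, hq, add_mul, Finset.sum_add_distrib]
  | mul_X p n hp =>
    rw [map_mul, aeval_X, Derivation.leibniz, hp]
    simp only [Derivation.leibniz, map_add, smul_eq_mul, map_mul, aeval_X, pderiv_X]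
    rw [Finset.mul_sum]
    have h1 : ∀ b : σ, (aeval ξ p * aeval ξ ((Pi.single b (1 : MvPolynomial σ k₀) : σ → MvPolynomial σ k₀) n) + ξ n * aeval ξ (pderiv b p)) * η (ξ b)
        = (if b = n then aeval ξ p * η (ξ n) else 0) + ξ n * (aeval ξ (pderiv b p) * η (ξ b)) := by
      intro b
      by_cases hb : b = n
      · subst hb; simp; ring
      · rw [if_neg hb, Pi.single_eq_of_ne (Ne.symm hb)]; simp; ring
    rw [Finset.sum_congr rfl fun b _ => h1 b, Finset.sum_add_distrib, Finset.sum_ite_eq' Finset.univ n]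
    simp

/-- **the Jacobian form of two vectors which are not proportional, for generic linear forms** -/
theorem jac_core {k₀ : Type u} [Field k₀] [CharZero k₀] {N : ℕ} {I : Ideal (MvPolynomial (Fin (N + 1)) k₀)} (hX : Surf I) {n : ℕ}
    (hn : n + 2 = N) (f : Fin n → MvPolynomial (Fin (N + 1)) k₀) (e : Fin n → ℕ) (hf : ∀ t, f t ∈ I)
    (hfe : ∀ t, (f t).IsHomogeneous (e t))
    (hg : ∀ (K : Type u) [Field K] [Algebra k₀ K] (z : Fin (N + 1) → K), (∃ j, z j = 1) → OnX I z →
      2 ≤ Algebra.trdeg k₀ (IntermediateField.adjoin k₀ (Set.range z)) → LinearIndependent K fun t => grad (f t) z)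
    (c : Fin (N + 1)) (hc : X c ∉ I) {q : ℕ} (M : Type u) [Field M] [Algebra k₀ M] (l : Fin q → Fin (N + 1) → M)
    (hl : AlgebraicIndependent k₀ fun p : Fin q × Fin (N + 1) => l p.1 p.2) (α β : Fin q → M) (i₀ j₀ : Fin q)
    (hp : α i₀ * β j₀ ≠ α j₀ * β i₀) : JR f l c α β ∉ I.map (MvPolynomial.map (algebraMap k₀ M)) := by
  classical
  intro hJ
  have hM : CharZero M := charZero_of_injective_algebraMap (algebraMap k₀ M).injective
  subst hn
  obtain ⟨E, _, _, _, _, y, hyc, hyX, ⟨c', hc'⟩, hlin⟩ := pt_y hX c hc M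
  have htr := trdeg_le hX y ⟨c, hyc⟩ hyX
  have ht0 : AlgebraicIndependent k₀ fun j => y (c' j) := AlgebraicIndependent.restrictScalars (algebraMap k₀ M).injective hc'
  have htr2 : 2 ≤ Algebra.trdeg k₀ (IntermediateField.adjoin k₀ (Set.range y)) := by
    let t : Fin 2 → IntermediateField.adjoin k₀ (Set.range y) := fun j =>
      ⟨y (c' j), IntermediateField.subset_adjoin _ _ (Set.mem_range_self _)⟩
    have ht : AlgebraicIndependent k₀ t :=
      ((IntermediateField.adjoin k₀ (Set.range y)).val.algebraicIndependent_iff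
        (IntermediateField.adjoin k₀ (Set.range y)).val.injective).1 ht0
    have h1 := ht.lift_cardinalMk_le_trdeg
    rw [Cardinal.mk_fin, Cardinal.lift_natCast] at h1
    simpa using h1
  have hgrad := hg E y ⟨c, hyc⟩ hyX htr2
  have hl0 : ∀ i, lv (l i) y ≠ 0 := by
    intro i h
    apply hc
    -- the linear form is in the ideal
    have h1 := hlin (l i) h
    by_contra hcI
    obtain ⟨V, hV⟩ : ∃ V : Submodule k₀ (MvPolynomial (Fin (n + 2 + 1)) k₀), V = I.restrictScalars k₀ := ⟨_, rfl⟩
    have hVI : ∀ g, g ∈ V ↔ g ∈ I := by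
      intro g
      rw [hV]
      exact Iff.rfl
    obtain ⟨μ, h2, h3⟩ := Submodule.exists_le_ker_of_notMem (mt (hVI (X c)).1 hc)
    have h4 := lam_eq_zero (K := M) μ (fun g hg => h3 ((hVI g).2 hg)) h1
    have h5 : ∑ b, l i b * algebraMap k₀ M (μ (X b)) = 0 := by
      rw [← h4, map_sum]
      refine Finset.sum_congr rfl fun b _ => ?_
      rw [C_mul_X_eq_monomial, lam_monomial]
      rfl
    let P : MvPolynomial (Fin q × Fin (n + 2 + 1)) k₀ := ∑ b, C (μ (X b)) * X (i, b)
    have h6 : aeval (fun p : Fin q × Fin (n + 2 + 1) => l p.1 p.2) P = 0 := by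
      rw [← h5, map_sum]
      refine Finset.sum_congr rfl fun b _ => ?_
      rw [map_mul, aeval_C, aeval_X, mul_comm]
    have h7 : P = 0 := (algebraicIndependent_iff.1 hl) P h6
    have h8 := congrArg (coeff (Finsupp.single (i, c) 1)) h7
    rw [coeff_zero, coeff_sum, Finset.sum_eq_single c] at h8
    · rw [coeff_C_mul, coeff_X, if_pos rfl, mul_one] at h8
      exact h2 h8
    · intro b _ hb
      rw [coeff_C_mul, coeff_X, if_neg, mul_zero]
      intro h9
      have h10 := Finsupp.single_left_injective one_ne_zero h9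
      exact hb (congrArg Prod.snd h10)
    · intro h9
      exact absurd (Finset.mem_univ _) h9
  have hJ0 : aeval y (JR f l c α β) = 0 := by
    have h1 : I.map (MvPolynomial.map (algebraMap k₀ M)) ≤ RingHom.ker ((aeval y : MvPolynomial (Fin (n + 2 + 1)) M →ₐ[M] E) : _ →+* E) := by
      rw [Ideal.map_le_iff_le_comap]
      intro g hg
      rw [Ideal.mem_comap, RingHom.mem_ker]
      change aeval y (MvPolynomial.map (algebraMap k₀ M) g) = 0
      rw [aeval_map_algebraMap]
      exact hyX g hg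
    exact h1 hJ
  rw [aeval_JR f l c α β y hl0] at hJ0
  have hdet := (mul_eq_zero.1 hJ0).resolve_left (Finset.prod_ne_zero_iff.2 fun i _ => hl0 i)
  obtain ⟨z, hz0, hGz, hαz, hβz, hzc⟩ := rows_ker _ _ _ _ hdet
  -- the derivations
  choose D hD using fun j : Fin 2 => Helper20.DER.exists_derivation (k := M) (K := E) hc' (fun i => if i = j then 1 else 0)
  have hchain : ∀ (δ : Derivation M E E) t, ∑ b, grad (f t) y b * δ (y b) = 0 := by
    intro δ t
    have h2 := chain_rule (δ.restrictScalars k₀) y (f t)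
    rw [hyX _ (hf t), map_zero] at h2
    exact h2.symm
  have hEuler : ∀ t, ∑ b, grad (f t) y b * y b = 0 := by
    intro t
    have h2 := congrArg (aeval y) (hfe t).sum_X_mul_pderiv
    rw [map_nsmul, hyX _ (hf t), smul_zero, map_sum] at h2
    rw [← h2]
    refine Finset.sum_congr rfl fun b _ => ?_
    rw [map_mul, aeval_X, mul_comm]
    rfl
  have hone : ∀ δ : Derivation M E E, δ (y c) = 0 := by
    intro δ
    rw [hyc, δ.map_one_eq_zero]
  have hz := tangent (fun t => grad (f t) y) hgrad c c' y z (fun j b => D j (y b)) hyc (fun j => hone _) hzc (fun j i => hD j i)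
    hEuler hGz (fun j t => hchain (D j) t)
  let η : Derivation M E E := z (c' 0) • D 0 + z (c' 1) • D 1
  have hη : ∀ b, η (y b) = z b := fun b => (hz b).symm
  have hηl : ∀ i, η (∑ b, algebraMap M E (l i b) * y b) = ∑ b, algebraMap M E (l i b) * z b := by
    intro i
    rw [map_sum]
    refine Finset.sum_congr rfl fun b _ => ?_
    rw [η.leibniz, η.map_algebraMap, smul_zero, add_zero, smul_eq_mul, hη]
  have hconv : ∀ γ : Fin q → M, ∑ b, (∑ i, (algebraMap M E (γ i) / lv (l i) y) • fun b => algebraMap M E (l i b)) b * z b = 0 →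
      ∑ i, algebraMap M E (γ i) * (η (∑ b, algebraMap M E (l i b) * y b) / ∑ b, algebraMap M E (l i b) * y b) = 0 := by
    intro γ h
    rw [← h]
    have h3 : ∀ b, (∑ i, (algebraMap M E (γ i) / lv (l i) y) • fun b => algebraMap M E (l i b)) b * z b =
        ∑ i, (algebraMap M E (γ i) / lv (l i) y) * (algebraMap M E (l i b) * z b) := by
      intro b
      rw [Finset.sum_apply, Finset.sum_mul]
      refine Finset.sum_congr rfl fun i _ => ?_
      rw [Pi.smul_apply, smul_eq_mul, mul_assoc]
    rw [Finset.sum_congr rfl fun b _ => h3 b, Finset.sum_comm]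
    refine Finset.sum_congr rfl fun i _ => ?_
    rw [← Finset.mul_sum, hηl]
    change _ * (_ / lv (l i) y) = _
    ring
  have hfin := no_der_at (k₀ := k₀) l hl y c hyc htr c' hc' hl0 α β i₀ j₀ hp η (hconv α hαz) (hconv β hβz)
  apply hz0
  funext b
  rw [← hη, hfin]
  rfl

end Pool.Agent.Helper21.TS

namespace Pool.Agent.TRI

open Module MvPolynomial Pool.Agent.Helper21.TS

universe u

variable {k₀ : Type u} [Field k₀] [CharZero k₀] {N : ℕ} {I : Ideal (MvPolynomial (Fin (N + 1)) k₀)}

/-- G5, the form used in G7 -/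
theorem jac_phi2 (hX : Surf I) {n : ℕ} (hn : n + 2 = N) (f : Fin n → MvPolynomial (Fin (N + 1)) k₀) (e : Fin n → ℕ) (hf : ∀ t, f t ∈ I)
    (hfe : ∀ t, (f t).IsHomogeneous (e t))
    (hg : ∀ (K : Type u) [Field K] [Algebra k₀ K] (z : Fin (N + 1) → K), (∃ j, z j = 1) → OnX I z →
      2 ≤ Algebra.trdeg k₀ (IntermediateField.adjoin k₀ (Set.range z)) → LinearIndependent K fun t => grad (f t) z)
    (c : Fin (N + 1)) (hc : X c ∉ I) (q : ℕ) :
    ∃ Φ : MvPolynomial (Fin q × Fin (N + 1)) k₀, Φ ≠ 0 ∧ ∀ (K : Type u) [Field K] [Algebra k₀ K] (l : Fin q → Fin (N + 1) → K),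
      aeval (fun p : Fin q × Fin (N + 1) => l p.1 p.2) Φ ≠ 0 → ∀ a b : Fin q → ℤ, LinearIndependent ℤ ![a, b] →
      ∑ p : Fin q × Fin q, C (((a p.1 * b p.2 : ℤ) : K)) * jac f l c p.1 p.2 ∉ I.map (MvPolynomial.map (algebraMap k₀ K)) := by
  classical
  by_contra hcon
  push Not at hcon
  choose K iK iA l hl a b hab hmem using fun Φ : {Φ : MvPolynomial (Fin q × Fin (N + 1)) k₀ // Φ ≠ 0} => hcon Φ.1 Φ.2
  obtain ⟨U, F, iF, iFA, -, π, -, hπ, -, hind, -⟩ := ultra K (fun _ => ⊤) (fun Φ p => l Φ p.1 p.2) hl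
  have hchar : ∀ Φ, CharZero (K Φ) := fun Φ => charZero_of_injective_algebraMap (algebraMap k₀ (K Φ)).injective
  -- the coefficients
  let L : Fin q → Fin (N + 1) → (∀ Φ, K Φ) := fun i b Φ => l Φ i b
  let A : Fin q → (∀ Φ, K Φ) := fun i Φ => (a Φ i : K Φ)
  let B : Fin q → (∀ Φ, K Φ) := fun i Φ => (b Φ i : K Φ)
  -- two indices
  obtain ⟨⟨i₀, j₀⟩, hij⟩ : ∃ x : Fin q × Fin q, ∀ᶠ Φ in (U : Filter _), a Φ x.1 * b Φ x.2 ≠ a Φ x.2 * b Φ x.1 := by
    by_contra h
    push Not at h
    obtain ⟨Φ, hΦ⟩ := (Filter.eventually_all.2 h).exists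
    obtain ⟨i, j, hij⟩ := indep_pair (hab Φ)
    exact hij (hΦ (i, j))
  have hp : π (A i₀) * π (B j₀) ≠ π (A j₀) * π (B i₀) := by
    intro h
    rw [← map_mul, ← map_mul, ← sub_eq_zero, ← map_sub, hπ] at h
    obtain ⟨Φ, h1, h2⟩ := (h.and hij).exists
    apply h2
    have h3 : ((a Φ i₀ : K Φ)) * (b Φ j₀ : K Φ) - (a Φ j₀ : K Φ) * (b Φ i₀ : K Φ) = 0 := h1
    have h4 := hchar Φ
    exact_mod_cast sub_eq_zero.1 h3
  refine jac_core hX hn f e hf hfe hg c hc F (fun i b => π (L i b)) hind (fun i => π (A i)) (fun i => π (B i)) i₀ j₀ hp ?_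
  rw [← map_JR π f L c A B]
  refine mem_of_lam fun μ hμ => ?_
  rw [lam_map]
  have h0 : lam (∀ Φ, K Φ) μ (JR f L c A B) = 0 := by
    funext Φ
    have h1 := lam_map (Pi.evalAlgHom k₀ K Φ) μ (JR f L c A B)
    rw [map_JR] at h1
    have h2 : lam (K Φ) μ (JR f (fun i b => (Pi.evalAlgHom k₀ K Φ) (L i b)) c (fun i => (Pi.evalAlgHom k₀ K Φ) (A i))
        (fun i => (Pi.evalAlgHom k₀ K Φ) (B i))) = 0 := by
      refine lam_eq_zero μ hμ ?_
      have h3 := hmem Φ
      convert! h3 using 1
      unfold JR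
      refine Finset.sum_congr rfl fun p _ => ?_
      rw [Int.cast_mul]
      rfl
    rw [h2] at h1
    exact h1.symm
  rw [h0, map_zero]

end Pool.Agent.TRI
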