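import Mathlib

/-!
# Extension of scalars of an ideal, by functionals

A polynomial `J` over an extension `K` of `k₀` is in the extension of the ideal `I` if and only if it is killed by all the
functionals of `k₀[X]` which kill `I`.
-/

set_option autoImplicit false

namespace Pool.Agent.Helper21.TS

open Module MvPolynomial

section

variable {k₀ σ : Type*} [Field k₀]

/-- the functional `μ` over an algebra -/
noncomputable def lam (R : Type*) [CommRing R] [Algebra k₀ R] (μ : MvPolynomial σ k₀ →ₗ[k₀] k₀) : MvPolynomial σ R →ₗ[R] R :=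
  (basisMonomials σ R).constr R fun m => algebraMap k₀ R (μ (monomial m 1))

theorem lam_monomial (R : Type*) [CommRing R] [Algebra k₀ R] (μ : MvPolynomial σ k₀ →ₗ[k₀] k₀) (m : σ →₀ ℕ) (a : R) :
    lam R μ (monomial m a) = a * algebraMap k₀ R (μ (monomial m 1)) := by
  have h1 : monomial m a = a • (basisMonomials σ R) m := by
    rw [coe_basisMonomials, smul_monomial, smul_eq_mul, mul_one]
  rw [h1, map_smul, lam, Basis.constr_basis, smul_eq_mul]

theorem lam_map {R S : Type*} [CommRing R] [Algebra k₀ R] [CommRing S] [Algebra k₀ S] (φ : R →ₐ[k₀] S)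
    (μ : MvPolynomial σ k₀ →ₗ[k₀] k₀) (J : MvPolynomial σ R) : lam S μ (MvPolynomial.map (φ : R →+* S) J) = φ (lam R μ J) := by
  induction J using MvPolynomial.induction_on' with
  | monomial m a => rw [map_monomial, lam_monomial, lam_monomial, map_mul, AlgHom.commutes]; rfl
  | add p q hp hq => rw [map_add, map_add, map_add, map_add, hp, hq]

theorem lam_base (μ : MvPolynomial σ k₀ →ₗ[k₀] k₀) (J : MvPolynomial σ k₀) : lam k₀ μ J = μ J := by
  induction J using MvPolynomial.induction_on' with
  | monomial m a =>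
    rw [lam_monomial, Algebra.algebraMap_self, RingHom.id_apply, ← smul_eq_mul, ← map_smul, smul_monomial, smul_eq_mul, mul_one]
  | add p q hp hq => rw [map_add, map_add, hp, hq]

variable {K : Type*} [Field K] [Algebra k₀ K]

theorem lam_map_base (μ : MvPolynomial σ k₀ →ₗ[k₀] k₀) (J : MvPolynomial σ k₀) :
    lam K μ (MvPolynomial.map (algebraMap k₀ K) J) = algebraMap k₀ K (μ J) := by
  have := lam_map (Algebra.ofId k₀ K) μ J
  rw [lam_base] at this
  exact this

theorem lam_eq_zero {I : Ideal (MvPolynomial σ k₀)} (μ : MvPolynomial σ k₀ →ₗ[k₀] k₀) (hμ : ∀ g ∈ I, μ g = 0)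
    {J : MvPolynomial σ K} (hJ : J ∈ I.map (MvPolynomial.map (algebraMap k₀ K))) : lam K μ J = 0 := by
  have key : ∀ a : MvPolynomial σ K, lam K μ (a * J) = 0 := by
    induction hJ using Submodule.span_induction with
    | mem x hx =>
      obtain ⟨g, hg, rfl⟩ := hx
      intro a
      induction a using MvPolynomial.induction_on' with
      | monomial m c =>
        have h1 : monomial m c * MvPolynomial.map (algebraMap k₀ K) g = c • MvPolynomial.map (algebraMap k₀ K) (monomial m 1 * g) := by
          rw [map_mul, map_monomial, map_one, smul_eq_C_mul, ← mul_assoc, C_mul_monomial, mul_one]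
        rw [h1, map_smul, lam_map_base, hμ _ (I.mul_mem_left _ hg), map_zero, smul_zero]
      | add p q hp hq => rw [add_mul, map_add, hp, hq, add_zero]
    | zero => exact fun a => by rw [mul_zero, map_zero]
    | add x y _ _ hx hy => exact fun a => by rw [mul_add, map_add, hx, hy, add_zero]
    | smul b x _ hx => exact fun a => by rw [smul_eq_mul, ← mul_assoc, hx]
  have := key 1
  rwa [one_mul] at this

/-- **the criterion** -/
theorem mem_of_lam {I : Ideal (MvPolynomial σ k₀)} {J : MvPolynomial σ K}
    (h : ∀ μ : MvPolynomial σ k₀ →ₗ[k₀] k₀, (∀ g ∈ I, μ g = 0) → lam K μ J = 0) :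
    J ∈ I.map (MvPolynomial.map (algebraMap k₀ K)) := by
  classical
  obtain ⟨V, hV⟩ : ∃ V : Submodule k₀ (MvPolynomial σ k₀), V = I.restrictScalars k₀ := ⟨_, rfl⟩
  have hVI : ∀ g, g ∈ V ↔ g ∈ I := by
    intro g
    rw [hV]
    exact Iff.rfl
  let b := Basis.ofVectorSpace k₀ (MvPolynomial σ k₀ ⧸ V)
  choose w hw using fun s => Submodule.mkQ_surjective V (b s)
  let μ : Basis.ofVectorSpaceIndex k₀ (MvPolynomial σ k₀ ⧸ V) → (MvPolynomial σ k₀ →ₗ[k₀] k₀) := fun s => (b.coord s) ∘ₗ V.mkQ
  have hμ : ∀ s, lam K (μ s) J = 0 := by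
    intro s
    refine h _ fun g hg => ?_
    change b.coord s (V.mkQ g) = 0
    rw [Submodule.mkQ_apply, (Submodule.Quotient.mk_eq_zero V).2 ((hVI g).2 hg), map_zero]
  -- the decomposition
  have hdec : ∀ J : MvPolynomial σ K, ∃ (T : Finset (Basis.ofVectorSpaceIndex k₀ (MvPolynomial σ k₀ ⧸ V))),
      (∀ s ∉ T, lam K (μ s) J = 0) ∧
      J - ∑ s ∈ T, C (lam K (μ s) J) * MvPolynomial.map (algebraMap k₀ K) (w s) ∈ I.map (MvPolynomial.map (algebraMap k₀ K)) := by
    intro J
    induction J using MvPolynomial.induction_on' with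
    | monomial m c =>
      have h1 : monomial m (1 : k₀) - ∑ s ∈ (b.repr (V.mkQ (monomial m 1))).support, C (μ s (monomial m 1)) * w s ∈ I := by
        rw [← hVI, ← Submodule.Quotient.mk_eq_zero, ← Submodule.mkQ_apply, map_sub, map_sum, sub_eq_zero]
        have h2 := b.linearCombination_repr (V.mkQ (monomial m 1))
        rw [Finsupp.linearCombination_apply, Finsupp.sum] at h2
        refine h2.symm.trans (Finset.sum_congr rfl fun s _ => ?_)
        rw [← smul_eq_C_mul, map_smul, hw]
        rfl
      refine ⟨(b.repr (V.mkQ (monomial m 1))).support, fun s hs => ?_, ?_⟩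
      · rw [lam_monomial]
        have : μ s (monomial m 1) = 0 := Finsupp.notMem_support_iff.1 hs
        rw [this, map_zero, mul_zero]
      · have h3 := Ideal.mul_mem_left _ (C c) (Ideal.mem_map_of_mem (MvPolynomial.map (algebraMap k₀ K)) h1)
        have h4 : C c * MvPolynomial.map (algebraMap k₀ K) (monomial m (1 : k₀) -
            ∑ s ∈ (b.repr (V.mkQ (monomial m 1))).support, C (μ s (monomial m 1)) * w s) =
            monomial m c - ∑ s ∈ (b.repr (V.mkQ (monomial m 1))).support,
              C (lam K (μ s) (monomial m c)) * MvPolynomial.map (algebraMap k₀ K) (w s) := by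
          rw [map_sub, map_sum, mul_sub, Finset.mul_sum, map_monomial, map_one, C_mul_monomial, mul_one]
          congr 1
          refine Finset.sum_congr rfl fun s _ => ?_
          rw [lam_monomial, map_mul, map_C, C_mul, mul_assoc]
        rwa [h4] at h3
    | add p q hp hq =>
      obtain ⟨T₁, h1, h2⟩ := hp
      obtain ⟨T₂, h3, h4⟩ := hq
      refine ⟨T₁ ∪ T₂, fun s hs => ?_, ?_⟩
      · rw [Finset.mem_union, not_or] at hs
        rw [map_add, h1 s hs.1, h3 s hs.2, add_zero]
      · have h5 : ∑ s ∈ T₁ ∪ T₂, C (lam K (μ s) (p + q)) * MvPolynomial.map (algebraMap k₀ K) (w s) =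
            ∑ s ∈ T₁, C (lam K (μ s) p) * MvPolynomial.map (algebraMap k₀ K) (w s) +
            ∑ s ∈ T₂, C (lam K (μ s) q) * MvPolynomial.map (algebraMap k₀ K) (w s) := by
          rw [Finset.sum_subset Finset.subset_union_left (f := fun s => C (lam K (μ s) p) * MvPolynomial.map (algebraMap k₀ K) (w s))
              (s₂ := T₁ ∪ T₂) (fun s _ hs => by rw [h1 s hs, C_0, zero_mul]),
            Finset.sum_subset Finset.subset_union_right (f := fun s => C (lam K (μ s) q) * MvPolynomial.map (algebraMap k₀ K) (w s))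
              (s₂ := T₁ ∪ T₂) (fun s _ hs => by rw [h3 s hs, C_0, zero_mul]), ← Finset.sum_add_distrib]
          refine Finset.sum_congr rfl fun s _ => ?_
          rw [map_add, C_add, add_mul]
        rw [h5]
        have h6 := Ideal.add_mem _ h2 h4
        convert! h6 using 1
        ring
  obtain ⟨T, -, hT⟩ := hdec J
  rw [Finset.sum_eq_zero fun s _ => by rw [hμ s, C_0, zero_mul], sub_zero] at hT
  exact hT

/-- elements of the base ring -/
theorem mem_of_map_mem {I : Ideal (MvPolynomial σ k₀)} {g : MvPolynomial σ k₀}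
    (h : MvPolynomial.map (algebraMap k₀ K) g ∈ I.map (MvPolynomial.map (algebraMap k₀ K))) : g ∈ I := by
  by_contra hg
  obtain ⟨V, hV⟩ : ∃ V : Submodule k₀ (MvPolynomial σ k₀), V = I.restrictScalars k₀ := ⟨_, rfl⟩
  have hVI : ∀ g, g ∈ V ↔ g ∈ I := by
    intro g
    rw [hV]
    exact Iff.rfl
  obtain ⟨μ, h1, h2⟩ := Submodule.exists_le_ker_of_notMem (mt (hVI g).1 hg)
  have h3 := lam_eq_zero (K := K) μ (fun g hg => h2 ((hVI g).2 hg)) h
  rw [lam_map_base, map_eq_zero] at h3
  exact h1 h3

end

end Pool.Agent.Helper21.TS
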