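import Pool.Agent.Helper21.TRI.Lam
import Pool.Agent.Helper6.TRI.GDefs
import Pool.Agent.Helper20.DER.Erk

/-!
# The generic point of a surface over an extension field
-/

set_option autoImplicit false

namespace Pool.Agent.Helper21.TS

open Module MvPolynomial Pool.Agent.TRI

universe u

section

variable {k₀ : Type u} [Field k₀] {N : ℕ} {I : Ideal (MvPolynomial (Fin (N + 1)) k₀)}

/-- the generic point over an extension field -/
theorem gen_pt (hX : Surf I) (M : Type u) [Field M] [Algebra k₀ M] : ∃ (E : Type u) (_ : Field E) (_ : Algebra M E)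
    (_ : Algebra k₀ E) (_ : IsScalarTower k₀ M E) (x : Fin (N + 1) → E), ∀ J : MvPolynomial (Fin (N + 1)) M,
    aeval x J = 0 ↔ J ∈ I.map (MvPolynomial.map (algebraMap k₀ M)) := by
  have := hX.geo M
  let A := MvPolynomial (Fin (N + 1)) M ⧸ I.map (MvPolynomial.map (algebraMap k₀ M))
  let E := FractionRing A
  refine ⟨E, inferInstance, inferInstance, inferInstance, inferInstance,
    fun b => algebraMap A E (Ideal.Quotient.mk _ (X b)), fun J => ?_⟩
  have h1 : aeval (fun b => algebraMap A E (Ideal.Quotient.mk _ (X b))) J = algebraMap A E (Ideal.Quotient.mk _ J) := by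
    have h2 : (aeval (fun b => algebraMap A E (Ideal.Quotient.mk _ (X b))) : MvPolynomial (Fin (N + 1)) M →ₐ[M] E) =
        (IsScalarTower.toAlgHom M A E).comp (Ideal.Quotient.mkₐ M _) := by
      apply MvPolynomial.algHom_ext
      intro i
      rw [aeval_X]
      rfl
    rw [h2]
    rfl
  rw [h1, map_eq_zero_iff _ (IsFractionRing.injective A E), Ideal.Quotient.eq_zero_iff_mem]

/-- three independent coordinates of the cone -/
theorem three_ind (hX : Surf I) : ∃ g : Fin 3 → Fin (N + 1),
    AlgebraicIndependent k₀ fun i => Ideal.Quotient.mk I (X (g i)) := by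
  have hpr := hX.prime
  let A := MvPolynomial (Fin (N + 1)) k₀ ⧸ I
  let t : Set A := Set.range fun b : Fin (N + 1) => Ideal.Quotient.mk I (X b)
  have htop : Algebra.adjoin k₀ t = ⊤ := by
    rw [eq_top_iff]
    rintro a -
    obtain ⟨p, rfl⟩ := Ideal.Quotient.mk_surjective a
    have h2 : Ideal.Quotient.mk I p = aeval (fun b : Fin (N + 1) => Ideal.Quotient.mk I (X b)) p := by
      have h2 : (aeval (fun b => Ideal.Quotient.mk I (X b)) : MvPolynomial (Fin (N + 1)) k₀ →ₐ[k₀] A) =
          Ideal.Quotient.mkₐ k₀ I := by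
        apply MvPolynomial.algHom_ext
        intro i
        rw [aeval_X]
        rfl
      rw [h2]
      rfl
    rw [h2, Algebra.adjoin_range_eq_range_aeval]
    exact ⟨p, rfl⟩
  have halg : Algebra.IsAlgebraic (Algebra.adjoin k₀ t) A := by
    refine ⟨fun a => ?_⟩
    have : a ∈ Algebra.adjoin k₀ t := by rw [htop]; exact Algebra.mem_top
    exact isAlgebraic_algebraMap (⟨a, this⟩ : Algebra.adjoin k₀ t)
  obtain ⟨u, -, hut, hu⟩ := exists_isTranscendenceBasis_between (R := k₀) (∅ : Set A) t (Set.empty_subset _)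
    (by
      rw [AlgebraicIndepOn, algebraicIndependent_empty_type_iff]
      exact (algebraMap k₀ A).injective)
  have hcard : Cardinal.mk u = 3 := by
    rw [hu.cardinalMk_eq_trdeg]
    exact hX.tr
  obtain ⟨e⟩ : Nonempty (Fin 3 ≃ u) := by
    have h3 : Cardinal.lift.{u} (Cardinal.mk (Fin 3)) = Cardinal.lift.{0} (Cardinal.mk u) := by
      rw [hcard, Cardinal.mk_fin]
      simp
    exact Cardinal.lift_mk_eq'.1 h3
  choose g hg using fun i => hut (e i).2
  refine ⟨g, ?_⟩
  have h4 := hu.1.comp e e.injective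
  have h5 : (fun i => Ideal.Quotient.mk I (X (g i))) = (Subtype.val : u → A) ∘ e := by
    funext i
    exact hg i
  rw [h5]
  exact h4

/-- they are independent over an extension field -/
theorem ind_ext {M E : Type u} [Field M] [Algebra k₀ M] [Field E] [Algebra M E] {ι : Type*} (g : ι → Fin (N + 1))
    (hg : AlgebraicIndependent k₀ fun i => Ideal.Quotient.mk I (X (g i))) (x : Fin (N + 1) → E)
    (hx : ∀ J : MvPolynomial (Fin (N + 1)) M, aeval x J = 0 → J ∈ I.map (MvPolynomial.map (algebraMap k₀ M))) :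
    AlgebraicIndependent M fun i => x (g i) := by
  classical
  rw [algebraicIndependent_iff]
  intro P hP
  have h1 : aeval x (rename g P) = 0 := by
    rw [aeval_rename]
    exact hP
  have h2 := hx _ h1
  ext m₀
  rw [coeff_zero]
  let ψ : MvPolynomial ι k₀ →ₗ[k₀] (MvPolynomial (Fin (N + 1)) k₀ ⧸ I) := (aeval fun i => Ideal.Quotient.mk I (X (g i))).toLinearMap
  have hψ : Function.Injective ψ := hg
  obtain ⟨θ, hθ⟩ := ψ.exists_leftInverse_of_injective (LinearMap.ker_eq_bot.2 hψ)
  let μ : MvPolynomial (Fin (N + 1)) k₀ →ₗ[k₀] k₀ := (lcoeff k₀ m₀) ∘ₗ θ ∘ₗ (Ideal.Quotient.mkₐ k₀ I).toLinearMap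
  have hμ : ∀ Q : MvPolynomial ι k₀, μ (rename g Q) = coeff m₀ Q := by
    intro Q
    change coeff m₀ (θ (Ideal.Quotient.mk I (rename g Q))) = _
    have h3 : Ideal.Quotient.mk I (rename g Q) = ψ Q := by
      have h2 : ((Ideal.Quotient.mkₐ k₀ I).comp (rename g) : MvPolynomial ι k₀ →ₐ[k₀] _) =
          (aeval fun i => Ideal.Quotient.mk I (X (g i))) := by
        apply MvPolynomial.algHom_ext
        intro i
        rw [aeval_X, AlgHom.comp_apply, rename_X]
        rfl
      exact DFunLike.congr_fun h2 Q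
    rw [h3]
    exact congrArg (coeff m₀) (LinearMap.congr_fun hθ Q)
  have h4 : ∀ Q : MvPolynomial ι M, lam M μ (rename g Q) = coeff m₀ Q := by
    intro Q
    induction Q using MvPolynomial.induction_on' with
    | monomial m a =>
      rw [rename_monomial, lam_monomial, ← rename_monomial, hμ, coeff_monomial, coeff_monomial, apply_ite (algebraMap k₀ M), map_one,
        map_zero, mul_ite, mul_one, mul_zero]
    | add p q hp hq => rw [map_add, map_add, hp, hq, coeff_add]
  rw [← h4]
  refine lam_eq_zero μ (fun h hh => ?_) h2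
  change coeff m₀ (θ (Ideal.Quotient.mk I h)) = 0
  rw [Ideal.Quotient.eq_zero_iff_mem.2 hh, map_zero, coeff_zero]

/-- the homogeneous polynomials of the ideal vanish at the normalized point -/
theorem onX_div (hX : Surf I) {E : Type*} [Field E] [Algebra k₀ E] (x : Fin (N + 1) → E) (hx : ∀ g ∈ I, aeval x g = 0)
    (s : E) : OnX I fun b => s * x b := by
  intro g hg
  rw [← sum_homogeneousComponent g, map_sum]
  refine Finset.sum_eq_zero fun m _ => ?_
  have h1 : ∀ (G : MvPolynomial (Fin (N + 1)) k₀), G.IsHomogeneous m → aeval (fun b => s * x b) G = s ^ m * aeval x G := by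
    intro G hG
    rw [aeval_def, aeval_def, eval₂_eq, eval₂_eq, Finset.mul_sum]
    refine Finset.sum_congr rfl fun d hd => ?_
    have h2 : ∑ i ∈ d.support, d i = m := by
      have h3 := hG (mem_support_iff.1 hd)
      rw [Finsupp.weight_apply] at h3
      simpa [Finsupp.sum] using h3
    have h4 : ∏ i ∈ d.support, (s * x i) ^ d i = s ^ m * ∏ i ∈ d.support, x i ^ d i := by
      rw [← h2, ← Finset.prod_pow_eq_pow_sum, ← Finset.prod_mul_distrib]
      exact Finset.prod_congr rfl fun i _ => mul_pow _ _ _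
    rw [h4]
    ring
  rw [h1 _ (homogeneousComponent_isHomogeneous m g), hx _ (hX.hom g hg m), mul_zero]

/-- the normalized generic point over an extension field -/
theorem pt_y (hX : Surf I) (c : Fin (N + 1)) (hc : X c ∉ I) (M : Type u) [Field M] [Algebra k₀ M] :
    ∃ (E : Type u) (_ : Field E) (_ : Algebra M E) (_ : Algebra k₀ E) (_ : IsScalarTower k₀ M E) (y : Fin (N + 1) → E),
    y c = 1 ∧ OnX I y ∧ (∃ c' : Fin 2 → Fin (N + 1), AlgebraicIndependent M fun j => y (c' j)) ∧
    ∀ m : Fin (N + 1) → M, ∑ b, algebraMap M E (m b) * y b = 0 → ∑ b, C (m b) * X b ∈ I.map (MvPolynomial.map (algebraMap k₀ M)) := by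
  classical
  obtain ⟨E, _, _, _, _, x, hx⟩ := gen_pt hX M
  have hxI : ∀ g ∈ I, aeval x g = 0 := by
    intro g hg
    have h1 := (hx (MvPolynomial.map (algebraMap k₀ M) g)).2 (Ideal.mem_map_of_mem _ hg)
    rwa [aeval_map_algebraMap] at h1
  have hxc : x c ≠ 0 := by
    intro h
    apply hc
    refine mem_of_map_mem (K := M) ?_
    rw [← hx, aeval_map_algebraMap, aeval_X]
    exact h
  refine ⟨E, inferInstance, inferInstance, inferInstance, inferInstance, fun b => (x c)⁻¹ * x b, inv_mul_cancel₀ hxc,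
    onX_div hX x hxI _, ?_, fun m hm => ?_⟩
  · obtain ⟨g, hg⟩ := three_ind hX
    have h3 := ind_ext g hg x fun J hJ => (hx J).1 hJ
    let y : Fin (N + 1) → E := fun b => (x c)⁻¹ * x b
    let Mt := AlgebraicIndependent.matroid M E
    have h4 : (3 : ℕ∞) ≤ Mt.eRk (Set.range x) := by
      rw [Matroid.le_eRk_iff]
      refine ⟨Set.range fun i => x (g i), ?_, ?_, ?_⟩
      · rintro _ ⟨i, rfl⟩
        exact Set.mem_range_self _
      · rw [AlgebraicIndependent.matroid_indep_iff]
        exact h3.coe_range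
      · rw [← Set.image_univ, h3.injective.encard_image, Set.encard_univ, ENat.card_eq_coe_fintype_card, Fintype.card_fin]
        rfl
    have h5 : Set.range x ⊆ Mt.closure (Set.range y ∪ {x c}) := by
      rintro _ ⟨b, rfl⟩
      have h6 : x b = x c * y b := by
        change x b = x c * ((x c)⁻¹ * x b)
        rw [← mul_assoc, mul_inv_cancel₀ hxc, one_mul]
      rw [h6, Helper20.DER.mem_closure_iff]
      refine IsAlgebraic.mul ?_ ?_
      · exact isAlgebraic_algebraMap (⟨x c, Algebra.subset_adjoin (Or.inr rfl)⟩ : Algebra.adjoin M (Set.range y ∪ {x c}))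
      · exact isAlgebraic_algebraMap (⟨y b, Algebra.subset_adjoin (Or.inl ⟨b, rfl⟩)⟩ : Algebra.adjoin M (Set.range y ∪ {x c}))
    have h7 : Mt.eRk (Set.range x) ≤ Mt.eRk (Set.range y) + 1 := by
      refine (Mt.eRk_mono h5).trans ?_
      rw [Matroid.eRk_closure_eq]
      refine (Mt.eRk_union_le_eRk_add_encard _ _).trans ?_
      rw [Set.encard_singleton]
    have h8 : (2 : ℕ∞) ≤ Mt.eRk (Set.range y) := by
      have h9 := h4.trans h7
      have h10 : (3 : ℕ∞) = 2 + 1 := rfl
      rw [h10] at h9
      exact (ENat.add_le_add_iff_right ENat.one_ne_top).1 h9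
    obtain ⟨J, hJ1, hJ2, hJ3⟩ := Matroid.le_eRk_iff.1 h8
    obtain ⟨u, v, huv, hJ4⟩ := Set.encard_eq_two.1 hJ3
    subst hJ4
    obtain ⟨b₁, hb₁⟩ := hJ1 (Set.mem_insert u {v})
    obtain ⟨b₂, hb₂⟩ := hJ1 (Set.mem_insert_of_mem u rfl)
    rw [AlgebraicIndependent.matroid_indep_iff] at hJ2
    refine ⟨![b₁, b₂], ?_⟩
    let e : Fin 2 → ({u, v} : Set E) := ![⟨u, Set.mem_insert u {v}⟩, ⟨v, Set.mem_insert_of_mem u rfl⟩]
    have he : Function.Injective e := by
      intro i j hij
      fin_cases i <;> fin_cases j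
      · rfl
      · exact absurd (congrArg Subtype.val hij) huv
      · exact absurd (congrArg Subtype.val hij).symm huv
      · rfl
    have h11 : AlgebraicIndependent M ((fun z : ({u, v} : Set E) => id (z : E)) ∘ e) := AlgebraicIndependent.comp hJ2 e he
    have h12 : (fun j => (x c)⁻¹ * x ((![b₁, b₂] : Fin 2 → Fin (N + 1)) j)) = (fun z : ({u, v} : Set E) => id (z : E)) ∘ e := by
      funext j
      fin_cases j
      · exact hb₁
      · exact hb₂
    rw [h12]
    exact h11
  · rw [← hx, map_sum]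
    have h1 : ∑ b, aeval x (C (m b) * X b) = x c * ∑ b, algebraMap M E (m b) * ((x c)⁻¹ * x b) := by
      rw [Finset.mul_sum]
      refine Finset.sum_congr rfl fun b _ => ?_
      rw [map_mul, aeval_C, aeval_X]
      field_simp
    rw [h1, hm, mul_zero]

end

end Pool.Agent.Helper21.TS
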